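import Pool.Agent.Lib.MP_fe131b_co.Final

set_option autoImplicit false

namespace Pool.Agent.Results.MP_fe131b_co.AsymptoticJackson

open Pool.Agent.Lib.MP_fe131b_co

/-- Jackson's conjecture on pairwise compatible Euler tours holds asymptotically: every Eulerian
multigraph with all degrees at least `2 d` has `2 d - O(d ^ (51/52))` pairwise compatible Euler
tours. -/
theorem result : ∃ C : ℝ, ∀ (V E : Type) [Finite V] [Finite E] [Nonempty V]
    (G : Multigraph V E) (d : ℕ), 1 ≤ d → G.IsEulerian → (∀ v, 2 * d ≤ G.degree v) →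
      ∃ k : ℕ, 2 * (d : ℝ) - C * (d : ℝ) ^ ((51 : ℝ) / 52) ≤ k ∧
        ∃ T : Fin k → G.EulerTour, ∀ i j, i ≠ j → (T i).Compatible (T j) := by
  obtain ⟨C, hC⟩ := exists_k
  refine ⟨C, ?_⟩
  intro V E _ _ _ G d hd hG hdeg
  obtain ⟨k, hk, hSV⟩ := hC d hd
  refine ⟨k, hk, ?_⟩
  have hE : 0 < Nat.card E := by
    have v0 : V := Classical.arbitrary V
    have h1 := hdeg v0
    have h2 : 0 < G.degree v0 := by omega
    unfold Multigraph.degree at h2
    obtain ⟨x⟩ := (Nat.card_pos_iff.1 h2).1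
    rw [Nat.card_pos_iff]
    exact ⟨⟨x.1.1⟩, inferInstance⟩
  exact multigraph_tours G k hG hE (fun v => hSV _ (hG.2 v) (hdeg v))

end Pool.Agent.Results.MP_fe131b_co.AsymptoticJackson
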