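import Pool.Agent.Lib.MP_fe131b_co.F4.All

set_option autoImplicit false

namespace Pool.Agent.Results.MP_fe131b_co.CaseFour

open Pool.Agent.Lib.MP_fe131b_co

/-- The case `d = 4` of Jackson's conjecture on pairwise compatible Euler tours: every Eulerian
multigraph with all degrees at least `8` has six pairwise compatible Euler tours. -/
theorem result (V E : Type) [Finite V] [Finite E] [Nonempty V] (G : Multigraph V E)
    (hG : G.IsEulerian) (hdeg : ∀ v, 8 ≤ G.degree v) :
    ∃ T : Fin 6 → G.EulerTour, ∀ i j, i ≠ j → (T i).Compatible (T j) := by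
  have hE : 0 < Nat.card E := by
    have v0 : V := Classical.arbitrary V
    have h1 := hdeg v0
    have h2 : 0 < G.degree v0 := by omega
    unfold Multigraph.degree at h2
    obtain ⟨x⟩ := (Nat.card_pos_iff.1 h2).1
    rw [Nat.card_pos_iff]
    exact ⟨⟨x.1.1⟩, inferInstance⟩
  exact multigraph_tours G 6 hG hE (fun v => F4.SV_six _ (hG.2 v) (hdeg v))

end Pool.Agent.Results.MP_fe131b_co.CaseFour
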