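import Pool.Agent.Lib.MP_fe131b_co.FracProcess

set_option autoImplicit false

namespace Pool.Agent.Results.MP_fe131b_co.FractionalJackson

open Pool.Agent.Lib.MP_fe131b_co

/-- The fractional version of Jackson's conjecture on pairwise compatible Euler tours, with the
exact constant: every Eulerian multigraph (with at least one edge) has a nonempty finite list of `m`
Euler tours such that every transition at a vertex of degree `n` occurs in at most `m / (n - 2)` of
them. -/
theorem result : ∀ (V E : Type) [Finite V] [Finite E] [Nonempty E] (G : Multigraph V E),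
    G.IsEulerian → ∃ m : ℕ, 0 < m ∧ ∃ T : Fin m → G.EulerTour, ∀ x y : E × Bool,
      (G.degree (G.ends x.1 x.2) - 2) * Nat.card {i // ∃ j, (T i).transition j = s(x, y)} ≤ m := by
  classical
  intro V E _ _ _ G hG
  have hE : 0 < Nat.card E := Nat.card_pos
  let φ : E × Bool → V := fun x => G.ends x.1 x.2
  have hconn : ∀ x y : E × Bool,
      Relation.EqvGen (fun a b => b = flipEnd a ∨ φ a = φ b) x y := by
    have key : ∀ u v : V, Relation.EqvGen
        (fun a b => ∃ e, G.ends e false = a ∧ G.ends e true = b) u v →
        (u = v ∨ ((∀ x, φ x = u → ∀ y, φ y = v →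
          Relation.EqvGen (fun a b => b = flipEnd a ∨ φ a = φ b) x y) ∧
          (∃ x, φ x = u) ∧ (∃ y, φ y = v))) := by
      intro u v h
      induction h with
      | rel a b hab =>
        obtain ⟨e, he1, he2⟩ := hab
        right
        refine ⟨?_, ⟨(e, false), he1⟩, ⟨(e, true), he2⟩⟩
        intro x hx y hy
        have h1 : Relation.EqvGen (fun a b => b = flipEnd a ∨ φ a = φ b) x (e, false) :=
          Relation.EqvGen.rel _ _ (Or.inr (by rw [hx]; exact he1.symm))
        have h2 : Relation.EqvGen (fun a b => b = flipEnd a ∨ φ a = φ b) (e, false)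
            ((e, true) : E × Bool) := Relation.EqvGen.rel _ _ (Or.inl rfl)
        have h3 : Relation.EqvGen (fun a b => b = flipEnd a ∨ φ a = φ b) (e, true) y :=
          Relation.EqvGen.rel _ _ (Or.inr (by rw [hy]; exact he2))
        exact Relation.EqvGen.trans _ _ _ (Relation.EqvGen.trans _ _ _ h1 h2) h3
      | refl a => left; rfl
      | symm a b _ ih =>
        rcases ih with ih | ⟨ih, h1, h2⟩
        · left; exact ih.symm
        · right
          exact ⟨fun x hx y hy => Relation.EqvGen.symm _ _ (ih y hy x hx), h2, h1⟩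
      | trans a b c _ _ ih1 ih2 =>
        rcases ih1 with rfl | ⟨ih1, h1, h2⟩
        · exact ih2
        · rcases ih2 with rfl | ⟨ih2, h3, h4⟩
          · right; exact ⟨ih1, h1, h2⟩
          · right
            refine ⟨?_, h1, h4⟩
            intro x hx y hy
            obtain ⟨z, hz⟩ := h2
            exact Relation.EqvGen.trans _ _ _ (ih1 x hx z hz) (ih2 z hz y hy)
    intro x y
    rcases key (φ x) (φ y) (hG.1 (φ x) (φ y)) with h | ⟨h, _, _⟩
    · exact Relation.EqvGen.rel _ _ (Or.inr h)
    · exact h x rfl y rfl
  obtain ⟨I, iI, nI, τ, h1, h2, h4, h5⟩ := frac_transitions (H := E × Bool) (W := V) flipEnd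
    flipEnd_PM φ hG.2 hconn
  have hT := fun i => exists_tour G hE (τ i) (h1 i) (h2 i) (h4 i)
  choose T hT using hT
  refine ⟨Fintype.card I, Fintype.card_pos, fun i => T ((Fintype.equivFin I).symm i), ?_⟩
  intro x y
  refine le_trans (Nat.mul_le_mul_left _ ?_) (h5 x y)
  have hfin : Finite {i // τ i x = y} := inferInstance
  refine Nat.card_le_card_of_injective
    (fun i => (⟨(Fintype.equivFin I).symm i.1, ?_⟩ : {i // τ i x = y})) ?_
  · obtain ⟨j, hj⟩ := i.2
    obtain ⟨z, hz⟩ := hT ((Fintype.equivFin I).symm i.1) j
    rw [hz, Sym2.eq_iff] at hj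
    rcases hj with ⟨h6, h7⟩ | ⟨h6, h7⟩
    · exact (congrArg _ h6.symm).trans h7
    · exact ((congrArg _ h7.symm).trans ((h1 _).1 z)).trans h6
  · intro a b hab
    have := congrArg Subtype.val hab
    exact Subtype.ext ((Fintype.equivFin I).symm.injective this)

end Pool.Agent.Results.MP_fe131b_co.FractionalJackson
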